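import Pool.Agent.H800R3.OMAlt

/-!
The alternating oriented matroid has the maximum number of `k`-neighborly reorientations among all
oriented matroids of rank `r` on `n` elements, for every `k ≤ (r - 1) / 2` and every
`n ≥ 2 (r - k) + 1`.
-/

namespace Pool.Agent.Results.MP_463270_co.LargeN

open Pool.Agent.H800R3.OM

theorem result : ∀ n r k : ℕ, 3 ≤ r → k ≤ (r - 1) / 2 → 2 * (r - k) + 1 ≤ n →
    ∀ L : Set (SVec n), IsOM L → HasRank L r →
      numNeighborly L k ≤ 2 * ∑ i ∈ Finset.range (r - 2 * k), (n - 1).choose i ∧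
      2 * ∑ i ∈ Finset.range (r - 2 * k), (n - 1).choose i ≤
        numNeighborly (alternating r n) k := by
  intro n r k hr hk hn L hL hrank
  exact ⟨num_le hL hrank (by omega) (by omega) (Or.inr hn), alt_ge n r k (by omega) (by omega)⟩

end Pool.Agent.Results.MP_463270_co.LargeN
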